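import Pool.Agent.Run7.h305.OW.T
import Pool.Agent.Run7.h662.OW.SO
import Pool.Agent.Run7.h373.OW.TH
import Pool.Agent.Run7.h181.OW.A
import Pool.Agent.Run7.h232.OW.DO
import Pool.Agent.Run7.h347.OW.FI
import Pool.Agent.Run7.h56.OW.DI
import Pool.Agent.Run7.h939.OW.R

/-!
# Open Whyburn spaces with `S₁(Ω^s, Γ^s)`: `Q_p(X, ℝ)` is Fréchet-Urysohn at each point

The positive answer to Q2. The notions of the problem (`Quasicontinuous`, `Qp`, `FrechetUrysohnAt`,
`MinBounded`, `OmegaS`, `GammaS`, `S1OmegaGamma`) are those of the starting file `NotFrechetUrysohn` of this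
problem, `OpenWhyburn` is defined in `Pool.Agent.Run7.h347.OW.Iface`.

Proof (project OW of helper347). In an open Whyburn space with `S₁(Ω^s, Γ^s)` the closed nowhere dense sets
are countable (A), there are nonempty open sets with disjoint closures (T), which make the selection principle
strong (R): the selected sets contain each point from some index on. So the set of the points of
discontinuity of a quasicontinuous `f` is countable, and at each of them there are two disjoint open sets
(DI), which give sets thin at the point (TH). One selects open sets `O n`, with each point outside of almost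
all of them, such that the discontinuities of `f` are in the closures of all `O n` (DO). Then the
families of the sets `{|g - f| < 1/(n+1)}`, enlarged by `O n` and the closure of the discontinuities, can be
used for the selection of the functions (FI, SO).
-/

set_option autoImplicit false

open Set Filter Topology Pool.Agent.Results.MP_76989b_gt.NotFrechetUrysohn
open Pool.Agent.Run7.h347.OW

namespace Pool.Agent.Results.MP_76989b_gt.OpenWhyburnSpaces

/-- On finite spaces the strong selection principle is trivial. -/
lemma strong_of_finite {X : Type*} [TopologicalSpace X] [Finite X] : StrongSelection X := by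
  intro 𝒰 h𝒰
  choose U hU hF using fun n => (h𝒰 n).2.2 Set.univ Set.finite_univ
  exact ⟨U, hU, fun x => Filter.Eventually.of_forall fun n => hF n (Set.mem_univ x)⟩

lemma strong {X : Type*} [TopologicalSpace X] (h2 : T2Space X) (hW : OpenWhyburn X)
    (hS : S1OmegaGamma X) : StrongSelection X := by
  rcases finite_or_infinite X with hf | hi
  · exact strong_of_finite
  · exact Run7.h939.OW.t_R (Pool.Agent.Run7.h305.OW.t_T X) h2 hi hW hS

theorem goal {X : Type*} [TopologicalSpace X] : Goal X := by
  intro h2 hW hS f
  have hSS : StrongSelection X := strong h2 hW hS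
  have hA := Run7.h181.OW.t_A h2 hW hS
  have hFI := Run7.h347.OW.t_FI (X := X) Run7.h662.OW.t_SO hSS f
  obtain ⟨hc, hd⟩ := Pool.Agent.Run7.h56.OW.t_DI X hA f.1 f.2
  rcases Set.eq_empty_or_nonempty {x | ¬ ContinuousAt f.1 x} with h0 | hne
  · refine hFI (fun _ => ∅) (fun _ => isOpen_empty) (fun y => Filter.Eventually.of_forall fun _ => by simp)
      (fun x n hx => ?_) (by simp)
    have h1 : x ∈ {x | ¬ ContinuousAt f.1 x} := hx
    rw [h0] at h1
    exact h1.elim
  · obtain ⟨d, hdr⟩ := hc.exists_eq_range hne
    have hdd : ∀ i, ¬ ContinuousAt f.1 (d i) := fun i => by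
      have h1 : d i ∈ {x | ¬ ContinuousAt f.1 x} := by
        rw [hdr]
        exact ⟨i, rfl⟩
      exact h1
    have hB0 : ∀ x : X, ∃ B : ℕ → Set X, ¬ ContinuousAt f.1 x →
        (∀ k, IsOpen (B k)) ∧ (∀ k, x ∈ closure (B k)) ∧
        (∀ k, x ∉ interior (closure (B k))) ∧ ∀ y, y ≠ x → ∀ᶠ k in atTop, y ∉ closure (B k) := by
      intro x
      by_cases hx : ContinuousAt f.1 x
      · exact ⟨fun _ => ∅, fun h => absurd hx h⟩
      · obtain ⟨U1, U2, h11, h12, h13, h14, h15⟩ := hd x hx
        obtain ⟨B, hB⟩ := Run7.h373.OW.t_TH h2 hSS x U1 U2 h11 h12 h13 h14 h15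
        exact ⟨B, fun _ => hB⟩
    choose B hB using hB0
    obtain ⟨O, hO1, hO2, hO3⟩ := Run7.h232.OW.t_DO h2 hSS d B
      (fun i k => (hB (d i) (hdd i)).1 k) (fun i k => (hB (d i) (hdd i)).2.1 k)
      (fun i k => (hB (d i) (hdd i)).2.2.1 k) (fun i y hy => (hB (d i) (hdd i)).2.2.2 y hy)
    refine hFI O hO1 hO2 (fun x n hx => ?_) ?_
    · have h1 : x ∈ {x | ¬ ContinuousAt f.1 x} := hx
      rw [hdr] at h1
      obtain ⟨i, rfl⟩ := h1
      exact hO3 i n
    · refine Set.countable_iUnion fun n => ?_
      have h1 : closure (O n) \ O n = frontier (O n) := (hO1 n).frontier_eq.symm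
      have h2' : closure (O n) \ O n = frontier (O n)ᶜ := by rw [h1, frontier_compl]
      refine hA _ ?_ ?_
      · rw [h1]
        exact isClosed_frontier
      · rw [h2']
        exact interior_frontier (hO1 n).isClosed_compl

/-- **The answer to Q2.** If the Hausdorff space `X` is open Whyburn and has `S₁(Ω^s, Γ^s)`, then
`Q_p(X, ℝ)` is Fréchet-Urysohn at each of its points. -/
theorem result (X : Type*) [TopologicalSpace X] [h2 : T2Space X] (hW : OpenWhyburn X)
    (hS : S1OmegaGamma X) (f : Qp X) : FrechetUrysohnAt f :=
  goal h2 hW hS f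

end Pool.Agent.Results.MP_76989b_gt.OpenWhyburnSpaces
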